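import Pool.Agent.helper44.CR.Stmt

/-!
Problem MP_07cd05_gt.  Boundary rigidity (and strict minimality of the filling volume) around an
arbitrary simple metric, in an open `L²` cone of `C⁰`-small deviations.
-/

namespace Pool.Agent.Results.MP_07cd05_gt.ConeRigidity

open KBR KBR.St KBR.CR

theorem result (n : ℕ) (hn : 2 ≤ n) (c : ℝ) (hc : c < (n + 3) / (2 * (n + 1))) :
    ∃ ε > 0, ∀ (G₁ G₂ B : Fld n) (ψ χ : E n → E n),
      Metric G₁ → Metric G₂ → AllExp G₁ → BdLe G₁ G₂ → BdDiffeo ψ χ → IsPull ψ G₂ B →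
      Near ε G₁ B → InCone c G₁ B →
      ((AllExp G₂ ∧ BdLe G₂ G₁) ∨ Vol G₂ ≤ Vol G₁) →
      PullEq G₁ G₂ ψ :=
  cone_theorem n hn c hc

end Pool.Agent.Results.MP_07cd05_gt.ConeRigidity
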