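import Pool.Agent.helper21.KBR3.Stmt4

/-!
# Boundary rigidity of Kähler metrics with global holomorphic coordinates

Let `M` be the closed unit ball of `ℝ²ᵐ`, `m ≥ 2`, and let `g₁`, `g₂` be simple Kähler metrics on
`M`, for complex structures `J₁`, `J₂` which admit global holomorphic coordinates (so `(M, gᵢ)` is a
domain of `ℂᵐ` with a Kähler metric) and which are not assumed to be related.  Assume that at one
boundary point `p` the sectional curvatures of `g₁` of the planes in `T_p∂M` are all positive or all
negative (or, more generally, that `± J₁(p)` are the only orthogonal complex structures of `T_pM`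
commuting with the curvature operators `R(u, v)`, `u, v ∈ T_p∂M`; or that `J₁` and `J₂` agree up to
sign at `p`, under the identification of tangent spaces given by the metrics).  If the boundary distance
functions agree, then there is a diffeomorphism `ψ` of `M`, smooth up to the boundary, equal to
the identity on `∂M`, with `ψ^* g₂ = g₁`.

Ideas of the proof.
* Equal boundary distances: the boundary isometry `F : (TM|∂M, g₁) → (TM|∂M, g₂)` intertwines the
  initial velocities of the geodesics between boundary points (first variation), hence the
  inverses of the exponential maps restricted to `∂M`.  Their second order jets show that `F` is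
  parallel for the Levi-Civita connections of `g₁` and `g₂` along `∂M`.
* `J₁`, `J₂` are parallel, hence `F J₁ = J₂ F` on `∂M` if it holds at one point, and `F⁻¹ J₂ F`
  commutes with the curvature of `g₁` on `∂M`; if the sectional curvatures have a strict
  sign then it is `± J₁` (otherwise the tangent space would split or be quaternionic).  In particular
  `J₂`-holomorphic coordinates restricted to `∂M` have a first order jet which is
  holomorphic for `J₁`; after a second order correction, the Cauchy transform in one variable
  gives a holomorphic extension to `M`, of class `C¹` up to the boundary (Hartogs-Bochner).  The two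
  extensions are inverse to each other (identity theorem, open-closed argument), which gives a
  biholomorphism `ψ : (M, J₁) → (M, J₂)` of class `C¹` with `dψ = F` on `∂M`.
* Energy identity: `∫ tr_{g₁}(ψ^* g₂ - g₁) ≥ 0` with equality only for `ψ^* g₂ = g₁`
  (invariance of the Liouville measure under the geodesic flow), while the closed
  form `ψ^* ω₂ - ω₁` vanishes on `∂M`, so that the integral is zero (Stokes).
* A `C¹` isometry is `exp₂ ∘ L ∘ exp₁⁻¹` with `L` linear, hence smooth up to the boundary.

Modules by helper15 (first variation up to the boundary, second order correction), helper18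
(boundary isometry, scattering relation), helper5 (second order jet of the exponential map),
helper73 (parallelism of the boundary isometry, parallel transport), helper22 (parallel complex
structure), helper16 (curvature and its symmetries, extension of charts), helper74 (commutant of
the curvature), helper45 (extension by zero, identity
theorem, jets), helper41 (Cauchy-Pompeiu formula, `∂̄`-equation), helper60 (Hartogs extension,
gluing), helper26 (smoothness of holomorphic maps), helper77 and helper25 (trace identity),
helper30 (mass transport, ellipsoid moments, pull-back), helper63 (asymptotics of distances),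
helper21 (plan, energy, smoothness of isometries, assembly).
-/

namespace Pool.Agent.Results.MP_07cd05_gt.KahlerDomains

open KBR KBR.St

/-- Boundary rigidity of Kähler metrics with global holomorphic coordinates. -/
theorem result (m : ℕ) (hm : 2 ≤ m) (G₁ G₂ J₁ J₂ : Fld (2 * m))
    (Φ₁ Φ₂ : E (2 * m) → Cn m) (h₁ : AlmostKahler G₁ J₁) (h₂ : AlmostKahler G₂ J₂)
    (c₁ : HolCoord J₁ Φ₁) (c₂ : HolCoord J₂ Φ₂)
    (s₁ : ∀ x ∈ M (2 * m), St.ExpDiffeo G₁ x) (s₂ : ∀ x ∈ M (2 * m), St.ExpDiffeo G₂ x)
    (hd : BdSame G₁ G₂) (p : E (2 * m)) (hp : p ∈ bM (2 * m))
    (hal : Aligned G₁ G₂ J₁ J₂ p ∨ SecSign G₁ p ∨ GenericAt G₁ J₁ p) :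
    ∃ ψ ψ' : E (2 * m) → E (2 * m), BdDiffeo ψ ψ' ∧ PullEq G₁ G₂ ψ ∧
      (PseudoHol J₁ J₂ ψ ∨ PseudoHol J₁ (negF J₂) ψ) :=
  kahlerDomains m hm G₁ G₂ J₁ J₂ Φ₁ Φ₂ h₁ h₂ c₁ c₂ s₁ s₂ hd p hp hal

end Pool.Agent.Results.MP_07cd05_gt.KahlerDomains
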