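import Pool.Agent.helper21.KBR.Stmt

/-!
# Boundary rigidity in the (almost) Kähler class

Let `M` be the closed unit ball of `ℝⁿ`, `n ≥ 3`, let `g₁` be a simple metric on `M` and `g₂` any
metric on `M`, both (almost) Kähler for the same (almost) complex structure (or, more generally,
for almost complex structures related by a smooth pseudoholomorphic map `ψ : M → M` which is the
identity on `∂M`).  If the boundary distance functions of `g₁` and `g₂` agree, then `ψ^* g₂ = g₁`;
for `ψ = id` the two metrics are equal.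

Ideas of the proof.
* On every maximal `g₁`-geodesic `γ` from `a` to `b` the length for `h = ψ^* g₂` is at least
  `d_{g₂}(a, b) ≥ d_{g₁}(a, b)`, the `g₁`-length of `γ`.  Invariance of the Liouville measure under
  the geodesic flow (mass transport along orbit segments) gives `∫ |v|_{g₁}(|v|_h - |v|_{g₁}) ≥ 0`
  over the unit codisc bundle.
* `h` and `g₁` induce the same metric on `T(∂M)` (first order behaviour of the distance functions at
  the diagonal), and both are `J`-invariant, so they agree on all of `TM` over `∂M`.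
* `ω_h - ω_{g₁}` is closed and vanishes on `∂M`, hence `∫ (ω_h - ω_{g₁}) ∧ ω_{g₁}^{m-1} = 0`, that
  is `∫ tr_{g₁}(h - g₁) dV = 0`, that is `∫ (|v|_h² - |v|_{g₁}²) = 0`.
* Therefore `∫ (|v|_h - |v|_{g₁})² ≤ 0`.

Modules by helper18 (Liouville theorem, geodesic flow, boundary metrics), helper30 (mass transport,
ellipsoid moments, pull-back), helper25 (Kähler trace identity), helper63 (boundary distance
asymptotics), helper21 (Gauss lemma, minimality, assembly).
-/

namespace Pool.Agent.Results.MP_07cd05_gt.KahlerRigidity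

open KBR KBR.St

/-- Boundary rigidity in the (almost) Kähler class. -/
theorem result (n : ℕ) (hn : 3 ≤ n) (G₁ G₂ J₁ J₂ : Fld n)
    (h₁ : AlmostKahler G₁ J₁) (h₂ : AlmostKahler G₂ J₂)
    (hexp : ∀ x ∈ M n, St.ExpDiffeo G₁ x)
    (ψ : E n → E n) (hψ : BdMap ψ) (hol : PseudoHol J₁ J₂ ψ)
    (hd : BdLe G₁ G₂) (hd' : BdTangent G₁ G₂) : PullEq G₁ G₂ ψ :=
  (main n G₁ G₂ h₁.metric.old h₂.metric.old (fun x hx => (hexp x hx).old) ψ hψ.smooth hψ.maps
    hψ.bd hd).2.1 hn J₁ J₂ h₁.old h₂.old hol hd'

end Pool.Agent.Results.MP_07cd05_gt.KahlerRigidity
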