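import Pool.Agent.helper71.SN.Fin

/-!
# Simple metrics which violate the foliation condition

For every `n ≥ 3` there is a simple metric on the closed unit ball `M` of `ℝⁿ` (strictly convex
boundary, every `exp_x` a diffeomorphism from its maximal domain onto `M`) which admits no strictly
convex function, and no foliation by strictly convex hypersurfaces up to a set with empty interior:
the foliation condition of Uhlmann-Vasy and Stefanov-Uhlmann-Vasy, under which boundary rigidity is
known in dimension at least three, does not hold for all simple metrics.

Ideas of the proof.
* The metric is conformally flat, `e^{2L}|dx|²`: the round hemisphere of `Sⁿ` in stereographic
  coordinates, changed in a thin layer near the equator.  `L = LR + μ(z) - ψ(X) Q(z)`, where `z` is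
  the height above the equator, `M = {z ≥ z_b}`, `z_b ≈ ε` is small, and `ψ = 1` exactly on the cone
  over the edges of the cube `[-1,1]ⁿ`.
* On a sphere `|x| = r < 1` the great arcs in this cone (the edges of a spherical cube) are
  geodesics of the metric; at each vertex the unit tangent vectors of the edges sum to zero.
  A function with strictly convex level sets above the level `a` is at most `a` on this balanced
  net (maximum principle), then on the cone over it, and then on an open set, because the metric
  is round near the center, where geodesics are straight in the gnomonic coordinate.
* Simplicity: along unit speed geodesics `q = z - z_b ≥ 0` satisfies `q'' + q ≤ -ε(χ - τ)` and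
  `q'' + K q ≤ -ε(χ - τ)` for all sectional curvatures `K` of planes containing the velocity; here
  `χ ≥ 0` vanishes only on the net, and its integral over great semicircles (against `sin t`) is
  bounded below, because the net contains no great semicircle.  As the geodesics are close to
  great circles, their lengths are less than `π` and there are no conjugate points.  As there are no
  geodesic loops, the exponential maps are diffeomorphisms (a local homeomorphism from a compact
  set onto a connected one, one point having one preimage).

Modules: helper36 (smooth dependence of flows), helper79 (exponential map), helper62 (geodesic
flow, convexity), helper42 (Jacobi fields), helper53, helper35 (comparison lemmas), helper69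
(geodesics), helper51 (topological lemma, angular function), helper56 (conformal metrics), helper64
(round metric), helper3, helper44 (curvature, net), helper14 (estimates), helper55 (closeness,
profile), helper52 (semicircles, net), helper45 (compactness, conclusion), helper39, helper17,
helper63 (maximum principle, gnomonic coordinate), helper91 (strictly convex functions), helper71
(idea, plan, assembly).
-/

namespace Pool.Agent.Results.MP_07cd05_gt.NoConvexFoliation

open SN KBR

/-- For every `n ≥ 3` there is a simple metric on the closed unit ball of `ℝⁿ` without strictly
convex functions and without foliations by strictly convex hypersurfaces, up to a set with empty
interior. -/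
theorem result (n : ℕ) (hn : 3 ≤ n) : ∃ (G : Fld n) (Γ : E n → E n → E n → E n),
    Simple G Γ ∧ (¬ ∃ f, StrictConvexFn Γ f) ∧ (¬ ∃ f a, ConvexFoliation Γ f a) :=
  main n hn

end Pool.Agent.Results.MP_07cd05_gt.NoConvexFoliation
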